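import Pool.Agent.H487.GA.Stm
import Pool.Agent.H477.Jen.XiInst

set_option autoImplicit false

/-!
# GA GDX (helper52, for helper487): the good heights by Tonelli and Markov
-/

open Finset Complex Filter Topology Metric Set MeasureTheory
open scoped ENNReal

namespace Pool.Agent.H52.GA.GDX

open Pool.Agent.Helper242.KK (FT Ph)
open Pool.Agent.H477.Jen
open Pool.Agent.H477.E
open Pool.Agent.H487.GA

noncomputable section

/-- the incidence set of the cones -/
def inc (r : ℝ) : Set (ℝ × ℂ) := {p : ℝ × ℂ | p.2 ∈ cone p.1 r}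

theorem inc_meas (r : ℝ) : MeasurableSet (inc r) := by
  have h1 : IsClosed {p : ℝ × ℂ | r / 4 ≤ -p.2.im} :=
    isClosed_le continuous_const (by fun_prop)
  have h2 : IsClosed {p : ℝ × ℂ | -p.2.im ≤ 5 / 4} :=
    isClosed_le (by fun_prop) continuous_const
  have h3 : IsClosed {p : ℝ × ℂ | |p.2.re - p.1| ≤ 2 * (-p.2.im)} :=
    isClosed_le (by fun_prop) (by fun_prop)
  have : inc r = {p : ℝ × ℂ | r / 4 ≤ -p.2.im} ∩ ({p : ℝ × ℂ | -p.2.im ≤ 5 / 4} ∩ {p : ℝ × ℂ | |p.2.re - p.1| ≤ 2 * (-p.2.im)}) := by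
    ext p
    simp only [inc, cone, Set.mem_ofPred_eq, Set.mem_inter_iff]
  rw [this]
  exact (h1.inter (h2.inter h3)).measurableSet

theorem cone_meas (t r : ℝ) : MeasurableSet (cone t r) := by
  have : cone t r = (fun w : ℂ => (t, w)) ⁻¹' inc r := by
    ext w
    simp only [inc, Set.mem_preimage, Set.mem_ofPred_eq]
  rw [this]
  exact (inc_meas r).preimage (by fun_prop)

theorem It_eq (g : ℂ → ℝ≥0∞) (t r : ℝ) :
    ∫⁻ w in cone t r, g w = ∫⁻ w, (inc r).indicator (fun p : ℝ × ℂ => g p.2) (t, w) := by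
  rw [← lintegral_indicator (cone_meas t r)]
  refine lintegral_congr fun w => ?_
  by_cases h : w ∈ cone t r
  · have h' : (t, w) ∈ inc r := by simpa only [inc, Set.mem_ofPred_eq] using h
    rw [Set.indicator_of_mem h, Set.indicator_of_mem h']
  · have h' : (t, w) ∉ inc r := by simpa only [inc, Set.mem_ofPred_eq] using h
    rw [Set.indicator_of_notMem h, Set.indicator_of_notMem h']

theorem It_meas {g : ℂ → ℝ≥0∞} (hg : Measurable g) (r : ℝ) :
    Measurable (fun t : ℝ => ∫⁻ w in cone t r, g w) := by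
  have h : Measurable ((inc r).indicator (fun p : ℝ × ℂ => g p.2)) :=
    (hg.comp measurable_snd).indicator (inc_meas r)
  simp only [It_eq]
  exact h.lintegral_prod_right'

/-- the box -/
def bx (a b r : ℝ) : Set ℂ := {w : ℂ | a ≤ w.re ∧ w.re ≤ b ∧ -(5 / 4) ≤ w.im ∧ w.im ≤ -(r / 4)}

theorem bx_meas (a b r : ℝ) : MeasurableSet (bx a b r) := by
  have h1 : IsClosed {w : ℂ | a ≤ w.re} := isClosed_le continuous_const (by fun_prop)
  have h2 : IsClosed {w : ℂ | w.re ≤ b} := isClosed_le (by fun_prop) continuous_const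
  have h3 : IsClosed {w : ℂ | -(5 / 4) ≤ w.im} := isClosed_le continuous_const (by fun_prop)
  have h4 : IsClosed {w : ℂ | w.im ≤ -(r / 4)} := isClosed_le (by fun_prop) continuous_const
  have : bx a b r = {w : ℂ | a ≤ w.re} ∩ ({w : ℂ | w.re ≤ b} ∩ ({w : ℂ | -(5 / 4) ≤ w.im} ∩ {w : ℂ | w.im ≤ -(r / 4)})) := by
    ext w
    simp only [bx, Set.mem_ofPred_eq, Set.mem_inter_iff]
  rw [this]
  exact (h1.inter (h2.inter (h3.inter h4))).measurableSet

theorem vol_slice (w : ℂ) : volume (Icc (w.re + 2 * w.im) (w.re - 2 * w.im)) = ENNReal.ofReal (-4 * w.im) := by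
  rw [Real.volume_Icc]
  congr 1
  ring

theorem ton1 {g : ℂ → ℝ≥0∞} (hg : Measurable g) (a b r : ℝ) :
    ∫⁻ t in Icc (a + 3) (b - 3), ∫⁻ w in cone t r, g w ≤ ∫⁻ w in bx a b r, ENNReal.ofReal (-4 * w.im) * g w := by
  have hm : Measurable ((inc r).indicator (fun p : ℝ × ℂ => g p.2)) :=
    (hg.comp measurable_snd).indicator (inc_meas r)
  simp only [It_eq]
  rw [lintegral_lintegral_swap (f := fun (t : ℝ) (w : ℂ) => (inc r).indicator (fun p : ℝ × ℂ => g p.2) (t, w)) (by exact hm.aemeasurable),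
    ← lintegral_indicator (bx_meas a b r)]
  refine lintegral_mono fun w => ?_
  -- fixed w
  have hsl : MeasurableSet {t : ℝ | (t, w) ∈ inc r} := (inc_meas r).preimage (by fun_prop)
  have e1 : ∫⁻ t in Icc (a + 3) (b - 3), (inc r).indicator (fun p : ℝ × ℂ => g p.2) (t, w)
      = g w * volume ({t : ℝ | (t, w) ∈ inc r} ∩ Icc (a + 3) (b - 3)) := by
    have : ∀ t : ℝ, (inc r).indicator (fun p : ℝ × ℂ => g p.2) (t, w) = {t : ℝ | (t, w) ∈ inc r}.indicator (fun _ => g w) t := by
      intro t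
      by_cases h : (t, w) ∈ inc r
      · rw [Set.indicator_of_mem h, Set.indicator_of_mem (by simpa only [Set.mem_ofPred_eq] using h)]
      · rw [Set.indicator_of_notMem h, Set.indicator_of_notMem (by simpa only [Set.mem_ofPred_eq] using h)]
    simp only [this]
    rw [lintegral_indicator_const hsl, Measure.restrict_apply hsl]
  rw [e1]
  by_cases hw : w ∈ bx a b r
  · rw [Set.indicator_of_mem hw, mul_comm]
    refine mul_le_mul_left ?_ _
    rw [← vol_slice w]
    refine measure_mono ?_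
    intro t ht
    have h1 : w ∈ cone t r := by simpa only [inc, Set.mem_ofPred_eq] using ht.1
    have h3 := abs_le.1 h1.2.2
    exact ⟨by linarith [h3.2], by linarith [h3.1]⟩
  · have : {t : ℝ | (t, w) ∈ inc r} ∩ Icc (a + 3) (b - 3) = ∅ := by
      rw [Set.eq_empty_iff_forall_notMem]
      intro t ht
      apply hw
      have h1 : w ∈ cone t r := by simpa only [inc, Set.mem_ofPred_eq] using ht.1
      have h3 := abs_le.1 h1.2.2
      have h4 := ht.2
      have h5 := h1.1
      have h6 := h1.2.1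
      exact ⟨by linarith [h3.1, h4.1], by linarith [h3.2, h4.2], by linarith, by linarith⟩
    rw [this, measure_empty, mul_zero]
    exact zero_le

theorem ton2 {h : ℂ → ℝ≥0∞} (hh : Measurable h) (a b r : ℝ) :
    ∫⁻ w in bx a b r, h w = ∫⁻ v in Icc (-(5 / 4)) (-(r / 4)), ∫⁻ x in Icc a b, h (⟨x, v⟩ : ℂ) := by
  have e := Complex.volume_preserving_equiv_real_prod.symm
  have e1 := e.setLIntegral_comp_preimage_emb (MeasurableEquiv.measurableEmbedding _) h (bx a b r)
  rw [← e1]
  have e2 : (Complex.measurableEquivRealProd.symm ⁻¹' bx a b r) = Icc a b ×ˢ Icc (-(5 / 4)) (-(r / 4)) := by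
    ext p
    simp only [Set.mem_preimage, Complex.measurableEquivRealProd_symm_apply, bx, Set.mem_ofPred_eq, Set.mem_prod, Set.mem_Icc]
    tauto
  rw [e2, Measure.volume_eq_prod, ← Measure.prod_restrict, lintegral_prod_symm']
  · rfl
  · exact hh.comp (MeasurableEquiv.measurable _)

theorem sq_int (c r : ℝ) (hc : 0 ≤ c) (hr : 0 < r) (hr1 : r ≤ 1) :
    ∫⁻ v in Icc (-(5 / 4)) (-(r / 4)), ENNReal.ofReal (c / v ^ 2) ≤ ENNReal.ofReal (4 * c / r) := by
  have hle : (-(5 / 4) : ℝ) ≤ -(r / 4) := by linarith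
  have hne : ∀ v ∈ Icc (-(5 / 4) : ℝ) (-(r / 4)), v ≠ 0 := by
    intro v hv h0
    have := hv.2
    rw [h0] at this
    linarith
  have hcont : ContinuousOn (fun v : ℝ => c / v ^ 2) (Icc (-(5 / 4)) (-(r / 4))) := by
    refine ContinuousOn.div continuousOn_const (by fun_prop) ?_
    intro v hv
    exact pow_ne_zero 2 (hne v hv)
  have hint : IntegrableOn (fun v : ℝ => c / v ^ 2) (Icc (-(5 / 4)) (-(r / 4))) := hcont.integrableOn_Icc
  rw [← ofReal_integral_eq_lintegral_ofReal hint (Filter.Eventually.of_forall fun v => by positivity)]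
  refine ENNReal.ofReal_le_ofReal ?_
  rw [integral_Icc_eq_integral_Ioc, ← intervalIntegral.integral_of_le hle]
  have hd : ∀ v ∈ Set.uIcc (-(5 / 4) : ℝ) (-(r / 4)), HasDerivAt (fun v : ℝ => -(c / v)) (c / v ^ 2) v := by
    intro v hv
    rw [Set.uIcc_of_le hle] at hv
    have h0 := hne v hv
    have h1 : HasDerivAt (fun v : ℝ => -(c * v⁻¹)) (-(c * (-(v ^ 2)⁻¹))) v := ((hasDerivAt_inv h0).const_mul c).neg
    have h2 : c / v ^ 2 = -(c * (-(v ^ 2)⁻¹)) := by
      rw [div_eq_mul_inv]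
      ring
    rw [h2]
    simpa only [div_eq_mul_inv] using h1
  rw [intervalIntegral.integral_eq_sub_of_hasDerivAt hd ?_]
  · have : -(c / -(r / 4)) - -(c / -(5 / 4)) = 4 * c / r - 4 / 5 * c := by
      field_simp
    rw [this]
    linarith
  · rw [intervalIntegrable_iff_integrableOn_Icc_of_le hle]
    exact hint

theorem zfin (T : ℝ) (hT : 10 ≤ T) :
    {s : ℂ | riemannZeta s = 0 ∧ (0 < s.re ∧ s.re < 1) ∧ T - 2 ≤ s.im ∧ s.im ≤ 2 * T + 2}.Finite := by
  by_contra hinf
  rw [Set.not_finite] at hinf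
  set Z : Set ℂ := {s : ℂ | riemannZeta s = 0 ∧ (0 < s.re ∧ s.re < 1) ∧ T - 2 ≤ s.im ∧ s.im ≤ 2 * T + 2} with hZ
  have hK : IsCompact (Icc (0 : ℝ) 1 ×ℂ Icc (T - 2) (2 * T + 2)) := isCompact_Icc.reProdIm isCompact_Icc
  have hsub : Z ⊆ Icc (0 : ℝ) 1 ×ℂ Icc (T - 2) (2 * T + 2) := by
    intro s hs
    rw [hZ, Set.mem_ofPred_eq] at hs
    exact ⟨⟨hs.2.1.1.le, hs.2.1.2.le⟩, ⟨hs.2.2.1, hs.2.2.2⟩⟩
  obtain ⟨z0, hz0, hacc⟩ := hinf.exists_accPt_of_subset_isCompact hK hsub
  set U : Set ℂ := {s : ℂ | 0 < s.im} with hU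
  have hUo : IsOpen U := isOpen_lt continuous_const Complex.continuous_im
  have hUc : IsPreconnected U := by
    have : Convex ℝ U := convex_halfSpace_im_gt 0
    exact this.isPreconnected
  have han : AnalyticOnNhd ℂ riemannZeta U := by
    refine DifferentiableOn.analyticOnNhd ?_ hUo
    intro s hs
    refine (differentiableAt_riemannZeta ?_).differentiableWithinAt
    intro h1
    rw [h1, hU, Set.mem_ofPred_eq, Complex.one_im] at hs
    exact lt_irrefl _ hs
  have hz0U : z0 ∈ U := by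
    rw [hU, Set.mem_ofPred_eq]
    have := hz0.2.1
    linarith
  have hfr : ∃ᶠ z in 𝓝[≠] z0, riemannZeta z = 0 := by
    rw [accPt_iff_frequently] at hacc
    rw [frequently_nhdsWithin_iff]
    refine hacc.mono fun y hy => ?_
    have hy2 := hy.2
    rw [hZ, Set.mem_ofPred_eq] at hy2
    exact ⟨hy2.1, hy.1⟩
  have h0 := han.eqOn_zero_of_preconnected_of_frequently_eq_zero hUc hz0U hfr
  have h2 : (2 + I : ℂ) ∈ U := by
    rw [hU, Set.mem_ofPred_eq]
    simp
  have h3 := h0 h2
  refine riemannZeta_ne_zero_of_one_le_re (s := 2 + I) ?_ h3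
  simp

theorem chi_zero {x : ℝ} (hx : 1 ≤ |x|) : chi x = 0 := by
  unfold chi
  refine Real.smoothTransition.zero_of_nonpos ?_
  have : 1 ≤ x ^ 2 := by
    rw [← sq_abs]
    nlinarith [abs_nonneg x]
  linarith

theorem Fy_zero {r x : ℝ} (hx : 1 ≤ |x|) : Fy r x = 0 := by
  unfold Fy
  rw [chi_zero hx, mul_zero]

theorem Fy_cont {r : ℝ} (hr : 0 < r) : Continuous (Fy r) := by
  unfold Fy chi
  refine Continuous.mul (Continuous.div continuous_const (by fun_prop) ?_) ?_
  · intro x
    positivity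
  · exact Real.smoothTransition.continuous.comp (by fun_prop)

theorem XF_meas {r T : ℝ} (hr : 0 < r) (hT : 10 ≤ T) : ∃ X : ℝ → ℝ, Measurable X ∧ ∀ t ∈ Icc T (2 * T), XF (Fy r) T t = X t := by
  have hf := zfin T hT
  refine ⟨fun t => (∑ s ∈ hf.toFinset, (mz s : ℝ) * Fy r (s.im - t)) - Real.log T / (2 * Real.pi) * ∫ x : ℝ, Fy r x, ?_, ?_⟩
  · refine Measurable.sub_const ?_ _
    refine Finset.measurable_fun_sum _ fun s _ => ?_
    exact ((Fy_cont hr).measurable.comp (by fun_prop)).const_mul _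
  · intro t ht
    unfold XF
    congr 1
    refine finsum_mem_eq_sum_of_inter_support_eq _ ?_
    ext s
    simp only [Set.mem_inter_iff, Function.mem_support, Set.Finite.coe_toFinset, Set.mem_ofPred_eq, ZS]
    constructor
    · rintro ⟨⟨h1, h2⟩, h3⟩
      refine ⟨⟨h1, h2, ?_⟩, h3⟩
      have h4 : |s.im - t| < 1 := by
        by_contra hc
        exact h3 (by rw [Fy_zero (not_lt.1 hc), mul_zero])
      rw [abs_lt] at h4
      have h5 := ht.1
      have h6 := ht.2
      constructor <;> linarith [h4.1, h4.2]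
    · rintro ⟨⟨h1, h2, _⟩, h3⟩
      exact ⟨⟨h1, h2⟩, h3⟩


/-! ### the assembly -/

theorem UU_meas (T : ℝ) : Measurable (UU T) := by
  have h1 : Measurable (FT Ph) := (ker_Ph.FT_diff).continuous.measurable
  have h2 : Measurable (deriv (FT Ph)) := measurable_deriv _
  unfold UU
  exact (Complex.measurable_im.comp (h2.div h1)).sub_const _

/-- the mean of the cone integral -/
theorem mean_I {C K T r : ℝ} (hC : 0 < C) (hT : 0 < T) (hr : 0 < r) (hr1 : r ≤ 1)
    (h : ∀ y : ℝ, 0 < y → y ≤ 5 / 4 → K ≤ y * Real.log T →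
      ∫⁻ t in Icc (T + 3 * Real.log T) (2 * T - 3 * Real.log T), ENNReal.ofReal |y * UU T ((t : ℂ) - I * y)| ≤ ENNReal.ofReal (C * T))
    (hK : 4 * K ≤ r * Real.log T) (hL : 0 ≤ Real.log T) :
    ∫⁻ t in Icc (T + 3 * Real.log T + 3) (2 * T - 3 * Real.log T - 3),
      ∫⁻ w in cone t r, ENNReal.ofReal (|UU T w| / w.im ^ 2) ≤ ENNReal.ofReal (16 * C * T / r) := by
  set g : ℂ → ℝ≥0∞ := fun w => ENNReal.ofReal (|UU T w| / w.im ^ 2) with hg
  have hgm : Measurable g := by
    have h1 := UU_meas T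
    have h2 : Measurable (fun w : ℂ => |UU T w| / w.im ^ 2) :=
      (measurable_abs.comp h1).div (Complex.measurable_im.pow_const 2)
    exact h2.ennreal_ofReal
  refine (ton1 hgm (T + 3 * Real.log T) (2 * T - 3 * Real.log T) r).trans ?_
  have hm2 : Measurable (fun w : ℂ => ENNReal.ofReal (-4 * w.im) * g w) := by
    refine Measurable.mul ?_ hgm
    exact (Complex.measurable_im.const_mul (-4)).ennreal_ofReal
  rw [ton2 hm2]
  have key : ∀ v ∈ Icc (-(5 / 4) : ℝ) (-(r / 4)),
      ∫⁻ x in Icc (T + 3 * Real.log T) (2 * T - 3 * Real.log T), ENNReal.ofReal (-4 * (⟨x, v⟩ : ℂ).im) * g ⟨x, v⟩ ≤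
        ENNReal.ofReal (4 * C * T / v ^ 2) := by
    intro v hv
    have hv1 := hv.1
    have hv2 := hv.2
    have hy : 0 < -v := by linarith
    have hKy : K ≤ (-v) * Real.log T := by
      have : r / 4 * Real.log T ≤ (-v) * Real.log T := mul_le_mul_of_nonneg_right (by linarith) hL
      linarith
    have h0 := h (-v) hy (by linarith) hKy
    have e : ∀ x : ℝ, ENNReal.ofReal (-4 * (⟨x, v⟩ : ℂ).im) * g ⟨x, v⟩ =
        ENNReal.ofReal (4 / v ^ 2) * ENNReal.ofReal |(-v) * UU T ((x : ℂ) - I * ((-v : ℝ) : ℂ))| := by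
      intro x
      have ez : ((x : ℂ) - I * ((-v : ℝ) : ℂ)) = ⟨x, v⟩ := by
        apply Complex.ext <;> simp
      rw [ez, hg]
      simp only
      rw [← ENNReal.ofReal_mul (by linarith), ← ENNReal.ofReal_mul (by positivity), abs_mul, abs_of_pos hy]
      congr 1
      have : v ≠ 0 := by
        intro h
        rw [h] at hy
        simp at hy
      field_simp
    simp only [e]
    rw [lintegral_const_mul' _ _ ENNReal.ofReal_ne_top]
    calc ENNReal.ofReal (4 / v ^ 2) * _ ≤ ENNReal.ofReal (4 / v ^ 2) * ENNReal.ofReal (C * T) := mul_le_mul_right h0 _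
      _ = ENNReal.ofReal (4 * C * T / v ^ 2) := by
        rw [← ENNReal.ofReal_mul (by positivity)]
        congr 1
        ring
  calc ∫⁻ v in Icc (-(5 / 4)) (-(r / 4)), ∫⁻ x in Icc (T + 3 * Real.log T) (2 * T - 3 * Real.log T), ENNReal.ofReal (-4 * (⟨x, v⟩ : ℂ).im) * g ⟨x, v⟩
      ≤ ∫⁻ v in Icc (-(5 / 4)) (-(r / 4)), ENNReal.ofReal (4 * C * T / v ^ 2) := setLIntegral_mono' measurableSet_Icc key
    _ ≤ ENNReal.ofReal (4 * (4 * C * T) / r) := sq_int _ _ (by positivity) hr hr1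
    _ = ENNReal.ofReal (16 * C * T / r) := by
      congr 1
      ring

theorem ball_cone {t r : ℝ} (hr : 0 < r) (hr1 : r ≤ 1 / 4) {z : ℂ} (hz : ‖z - ((t : ℂ) - I * r)‖ ≤ r / 2) : z ∈ cone t r := by
  have h1 := (Complex.abs_re_le_norm _).trans hz
  have h2 := (Complex.abs_im_le_norm _).trans hz
  have e1 : (z - ((t : ℂ) - I * r)).re = z.re - t := by simp
  have e2 : (z - ((t : ℂ) - I * r)).im = z.im + r := by simp
  rw [e1] at h1
  rw [e2] at h2
  have h3 := abs_le.1 h2
  refine ⟨by linarith [h3.2], by linarith [h3.1], by linarith [h3.2]⟩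

theorem log_small (ε : ℝ) (hε : 0 < ε) : ∃ T0 : ℝ, ∀ T : ℝ, T0 ≤ T → 6 * Real.log T + 6 ≤ ε * T := by
  have h1 : (fun T : ℝ => Real.log T) =o[atTop] (fun T : ℝ => T) := Real.isLittleO_log_id_atTop
  have h2 := (h1.def (show (0 : ℝ) < ε / 12 by positivity))
  have h3 : ∀ᶠ T : ℝ in atTop, 12 / ε ≤ T ∧ 1 ≤ T := (eventually_ge_atTop _).and (eventually_ge_atTop _)
  obtain ⟨T0, hT0⟩ := eventually_atTop.1 (h2.and h3)
  refine ⟨T0, fun T hT => ?_⟩
  obtain ⟨h4, h5, h6⟩ := hT0 T hT
  rw [Real.norm_eq_abs, Real.norm_eq_abs, abs_of_nonneg (by linarith : (0 : ℝ) ≤ T)] at h4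
  have h7 := (le_abs_self _).trans h4
  rw [div_le_iff₀ hε] at h5
  nlinarith

/-- **S_GDX.** -/
theorem gdx_proof : S_UAP → S_CONE → S_CZ → S_G1 → S_GDX := by
  rintro ⟨⟨Cu, Ku, Tu, hCu, hKu, hTu, h1⟩, h2⟩ ⟨Cc, hCc, hc⟩ ⟨Cz, Tz, hCz, hTz, hz⟩ ⟨A, Tg, hA, hTg, hg⟩
  intro ε hε
  obtain ⟨δ2, K2, T2, hδ2, hK2, hT2, h2⟩ := h2 (ε ^ 2 / 8) (by positivity)
  obtain ⟨T3, hT3⟩ := log_small (ε / 8) (by positivity)
  obtain ⟨T4, hT4⟩ := log_small (1 / 2) (by positivity)
  refine ⟨A + Cc * (64 * Cu / ε), max (4 * Ku) (max K2 (8 * Cz / ε)), min δ2 (1 / 4),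
    max (max Tu Tz) (max (max Tg T2) (max T3 T4)), by positivity, ?_, lt_min hδ2 (by norm_num), ?_, ?_⟩
  · exact le_trans (by linarith) (le_max_left _ _)
  · exact hTu.trans ((le_max_left _ _).trans (le_max_left _ _))
  intro T hT r hr hK hrδ
  have hTu' : Tu ≤ T := ((le_max_left _ _).trans (le_max_left _ _)).trans hT
  have hTz' : Tz ≤ T := ((le_max_right _ _).trans (le_max_left _ _)).trans hT
  have hTg' : Tg ≤ T := ((le_max_left _ _).trans ((le_max_left _ _).trans (le_max_right _ _))).trans hT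
  have hT2' : T2 ≤ T := ((le_max_right _ _).trans ((le_max_left _ _).trans (le_max_right _ _))).trans hT
  have hT3' : T3 ≤ T := ((le_max_left _ _).trans ((le_max_right _ _).trans (le_max_right _ _))).trans hT
  have hT4' : T4 ≤ T := ((le_max_right _ _).trans ((le_max_right _ _).trans (le_max_right _ _))).trans hT
  have hT10 : 10 ≤ T := hTu.trans hTu'
  have hTpos : 0 < T := by linarith
  have hL : 0 ≤ Real.log T := Real.log_nonneg (by linarith)
  have hKu' : 4 * Ku ≤ r * Real.log T := (le_max_left _ _).trans hK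
  have hK2' : K2 ≤ r * Real.log T := ((le_max_left _ _).trans (le_max_right _ _)).trans hK
  have hKz' : 8 * Cz / ε ≤ r * Real.log T := ((le_max_right _ _).trans (le_max_right _ _)).trans hK
  have hrδ2 : r ≤ δ2 := hrδ.trans (min_le_left _ _)
  have hr4 : r ≤ 1 / 4 := hrδ.trans (min_le_right _ _)
  have hrL : 0 < r * Real.log T := by linarith
  have hlog := hT3 T hT3'
  have hlog2 := hT4 T hT4'
  obtain ⟨Bz, hBz, hBzv, hBz2⟩ := hz T hTz' r hr (by linarith)
  have hI := mean_I hCu hTpos hr (by linarith) (h1 T hTu') hKu' hL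
  have hX := h2 T hT2' r hr hrδ2 hK2'
  obtain ⟨X, hXm, hXe⟩ := XF_meas (r := r) (T := T) hr hT10
  set m : ℝ := 64 * Cu / (ε * r) with hm
  have hmpos : 0 < m := by positivity
  set If : ℝ → ℝ≥0∞ := fun t => ∫⁻ w in cone t r, ENNReal.ofReal (|UU T w| / w.im ^ 2) with hIf
  have hIfm : Measurable If := by
    refine It_meas ?_ r
    have h1 := UU_meas T
    have h2 : Measurable (fun w : ℂ => |UU T w| / w.im ^ 2) :=
      (measurable_abs.comp h1).div (Complex.measurable_im.pow_const 2)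
    exact h2.ennreal_ofReal
  set Df : ℝ → ℝ≥0∞ := fun t => ENNReal.ofReal |r * UU T ((t : ℂ) - I * r) - X t| with hDf
  have hDfm : Measurable Df := by
    have h3 : Measurable (fun t : ℝ => UU T ((t : ℂ) - I * r)) := (UU_meas T).comp (by fun_prop)
    exact (measurable_abs.comp ((h3.const_mul r).sub hXm)).ennreal_ofReal
  set S1 : Set ℝ := Icc (T + 3 * Real.log T + 3) (2 * T - 3 * Real.log T - 3) with hS1
  set S2 : Set ℝ := Icc (T + 3 * Real.log T) (2 * T - 3 * Real.log T) with hS2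
  have hD2 : ∫⁻ t in S2, Df t ≤ ENNReal.ofReal (ε ^ 2 / 8 * T) := by
    refine le_trans (le_of_eq ?_) hX
    refine setLIntegral_congr_fun measurableSet_Icc ?_
    intro t ht
    have : t ∈ Icc T (2 * T) := ⟨by linarith [ht.1], by linarith [ht.2]⟩
    rw [hDf]
    simp only
    rw [hXe t this]
  -- Markov
  have hM1 : volume ({t | ENNReal.ofReal m ≤ If t} ∩ S1) ≤ ENNReal.ofReal (ε / 4 * T) := by
    have hmk := mul_meas_ge_le_lintegral₀ (μ := volume.restrict S1) hIfm.aemeasurable (ENNReal.ofReal m)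
    rw [Measure.restrict_apply (measurableSet_le measurable_const hIfm)] at hmk
    have h3 := hmk.trans hI
    have h4 : ENNReal.ofReal (16 * Cu * T / r) = ENNReal.ofReal m * ENNReal.ofReal (ε / 4 * T) := by
      rw [← ENNReal.ofReal_mul hmpos.le]
      congr 1
      rw [hm]
      field_simp
      norm_num
    rw [h4] at h3
    exact (ENNReal.mul_le_mul_iff_right (by simpa using hmpos) ENNReal.ofReal_ne_top).1 h3
  have hM2 : volume ({t | ENNReal.ofReal ε ≤ Df t} ∩ S2) ≤ ENNReal.ofReal (ε / 8 * T) := by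
    have hmk := mul_meas_ge_le_lintegral₀ (μ := volume.restrict S2) hDfm.aemeasurable (ENNReal.ofReal ε)
    rw [Measure.restrict_apply (measurableSet_le measurable_const hDfm)] at hmk
    have h3 := hmk.trans hD2
    have h4 : ENNReal.ofReal (ε ^ 2 / 8 * T) = ENNReal.ofReal ε * ENNReal.ofReal (ε / 8 * T) := by
      rw [← ENNReal.ofReal_mul hε.le]
      congr 1
      ring
    rw [h4] at h3
    exact (ENNReal.mul_le_mul_iff_right (by simpa using hε) ENNReal.ofReal_ne_top).1 h3
  have hE1 : volume (Icc T (T + 3 * Real.log T + 3)) ≤ ENNReal.ofReal (ε / 16 * T) := by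
    rw [Real.volume_Icc]
    exact ENNReal.ofReal_le_ofReal (by linarith)
  have hE2 : volume (Icc (2 * T - 3 * Real.log T - 3) (2 * T)) ≤ ENNReal.ofReal (ε / 16 * T) := by
    rw [Real.volume_Icc]
    exact ENNReal.ofReal_le_ofReal (by linarith)
  have hZ1 : volume Bz ≤ ENNReal.ofReal (ε / 8 * T) := by
    refine hBzv.trans (ENNReal.ofReal_le_ofReal ?_)
    rw [div_le_iff₀ hrL]
    rw [div_le_iff₀ hε] at hKz'
    nlinarith
  refine ⟨Icc T (T + 3 * Real.log T + 3) ∪ (Icc (2 * T - 3 * Real.log T - 3) (2 * T) ∪ (Bz ∪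
    (({t | ENNReal.ofReal m ≤ If t} ∩ S1) ∪ ({t | ENNReal.ofReal ε ≤ Df t} ∩ S2)))), ?_, ?_, ?_⟩
  · refine measurableSet_Icc.union (measurableSet_Icc.union (hBz.union (MeasurableSet.union ?_ ?_)))
    · exact (measurableSet_le measurable_const hIfm).inter measurableSet_Icc
    · exact (measurableSet_le measurable_const hDfm).inter measurableSet_Icc
  · calc volume _ ≤ ENNReal.ofReal (ε / 16 * T) + (ENNReal.ofReal (ε / 16 * T) + (ENNReal.ofReal (ε / 8 * T) +
        (ENNReal.ofReal (ε / 4 * T) + ENNReal.ofReal (ε / 8 * T)))) := by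
          refine (measure_union_le _ _).trans (add_le_add hE1 ?_)
          refine (measure_union_le _ _).trans (add_le_add hE2 ?_)
          refine (measure_union_le _ _).trans (add_le_add hZ1 ?_)
          exact (measure_union_le _ _).trans (add_le_add hM1 hM2)
      _ ≤ ENNReal.ofReal (ε * T) := by
          rw [← ENNReal.ofReal_add (by positivity) (by positivity), ← ENNReal.ofReal_add (by positivity) (by positivity),
            ← ENNReal.ofReal_add (by positivity) (by positivity), ← ENNReal.ofReal_add (by positivity) (by positivity)]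
          refine ENNReal.ofReal_le_ofReal ?_
          have : 0 < ε * T := by positivity
          linarith
  · intro t ht1 ht2 htB
    simp only [Set.mem_union, not_or] at htB
    obtain ⟨hb1, hb2, hb3, hb4, hb5⟩ := htB
    have hlo : T + 3 * Real.log T + 3 < t := by
      by_contra hcon
      exact hb1 ⟨ht1, not_lt.1 hcon⟩
    have hhi : t < 2 * T - 3 * Real.log T - 3 := by
      by_contra hcon
      exact hb2 ⟨not_lt.1 hcon, ht2⟩
    have htS1 : t ∈ S1 := ⟨hlo.le, hhi.le⟩
    have htS2 : t ∈ S2 := ⟨by linarith, by linarith⟩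
    have hI2 : If t < ENNReal.ofReal m := by
      by_contra hcon
      exact hb4 ⟨not_lt.1 hcon, htS1⟩
    have hD3 : Df t < ENNReal.ofReal ε := by
      by_contra hcon
      exact hb5 ⟨not_lt.1 hcon, htS2⟩
    have hne := hBz2 t ht1 ht2 hb3
    constructor
    · intro z hz
      have hzc := ball_cone hr hr4 hz
      refine ⟨hne z hzc, ?_⟩
      have hfa : ∀ w : ℂ, AnalyticAt ℂ (FT Ph) w := fun w => (ker_Ph.FT_diff).analyticAt w
      have hG := hc (fun w => deriv (FT Ph) w / FT Ph w - I * (lamT T : ℂ)) t r A hr hr4 hA.le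
        (fun w hw => ((hfa w).deriv.div (hfa w) (hne w hw)).sub analyticAt_const)
        (fun x hx => by
          have := abs_le.1 hx
          exact hg T hTg' x (by linarith [this.1]) (by linarith [this.2])) z hz
      have him : ∀ w : ℂ, (deriv (FT Ph) w / FT Ph w - I * (lamT T : ℂ)).im = UU T w := by
        intro w
        unfold UU
        simp [Complex.sub_im, Complex.mul_im]
      simp only [him] at hG
      have hG2 : ENNReal.ofReal ‖deriv (FT Ph) z / FT Ph z - I * (lamT T : ℂ)‖ ≤ ENNReal.ofReal (A + Cc * m) := by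
        rw [ENNReal.ofReal_add hA.le (by positivity), ENNReal.ofReal_mul hCc.le]
        exact hG.trans (add_le_add le_rfl (mul_le_mul_right hI2.le _))
      have hG3 := (ENNReal.ofReal_le_ofReal_iff (by positivity)).1 hG2
      refine hG3.trans ?_
      rw [hm, le_div_iff₀ hr]
      have e1 : (A + Cc * (64 * Cu / (ε * r))) * r = A * r + Cc * (64 * Cu / ε) := by
        field_simp
      rw [e1]
      nlinarith
    · have h5 := (ENNReal.ofReal_lt_ofReal_iff hε).1 hD3
      rw [hXe t ⟨ht1, ht2⟩]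
      exact h5.le

end

end Pool.Agent.H52.GA.GDX
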